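import Pool.Agent.ZPK.StmtsR

/-!
Squad ZPK (MP_6e1a06_nt), row MAI: comparison of two large coordinates.
-/

set_option autoImplicit false

namespace Pool.Agent.ZPK.H89

open Polynomial Pool.Agent.ZPT Pool.Agent.ZP3

section ultra

variable {K : Type} [NormedField K] [IsUltrametricDist K]

theorem nadd {x y : K} {r : ℝ} (hx : ‖x‖ ≤ r) (hy : ‖y‖ ≤ r) : ‖x + y‖ ≤ r :=
  le_trans (IsUltrametricDist.norm_add_le_max x y) (max_le hx hy)

theorem nsub {x y : K} {r : ℝ} (hx : ‖x‖ ≤ r) (hy : ‖y‖ ≤ r) : ‖x - y‖ ≤ r := by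
  rw [sub_eq_add_neg]
  exact nadd hx (by rwa [norm_neg])

theorem nsum {ι : Type} (s : Finset ι) (f : ι → K) {r : ℝ} (hr : 0 ≤ r)
    (h : ∀ i ∈ s, ‖f i‖ ≤ r) : ‖∑ i ∈ s, f i‖ ≤ r := by
  classical
  induction s using Finset.induction_on with
  | empty => simpa using hr
  | insert a s ha ih =>
    rw [Finset.sum_insert ha]
    exact nadd (h a (Finset.mem_insert_self a s))
      (ih fun i hi => h i (Finset.mem_insert_of_mem hi))

omit [IsUltrametricDist K] in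
theorem nmul {x y : K} {r s : ℝ} (hx : ‖x‖ ≤ r) (hy : ‖y‖ ≤ s) : ‖x * y‖ ≤ r * s := by
  rw [norm_mul]
  exact mul_le_mul hx hy (norm_nonneg _) (le_trans (norm_nonneg _) hx)

theorem nnat (n : ℕ) : ‖(n : K)‖ ≤ 1 := by
  induction n with
  | zero => simp
  | succ n ih =>
    rw [Nat.cast_succ]
    exact nadd ih (by simp)

/-- polynomials with integral coefficients -/
def IP (P : K[X]) : Prop := ∀ n, ‖P.coeff n‖ ≤ 1

theorem IP.mul {P Q : K[X]} (hP : IP P) (hQ : IP Q) : IP (P * Q) := by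
  intro n
  rw [Polynomial.coeff_mul]
  refine nsum _ _ zero_le_one fun i _ => ?_
  have := nmul (hP i.1) (hQ i.2)
  simpa using this

theorem IP.pow {P : K[X]} (hP : IP P) (n : ℕ) : IP (P ^ n) := by
  induction n with
  | zero =>
    intro k
    rw [pow_zero, Polynomial.coeff_one]
    split_ifs <;> simp
  | succ n ih =>
    rw [pow_succ]
    exact ih.mul hP

theorem IP.sub {P Q : K[X]} (hP : IP P) (hQ : IP Q) : IP (P - Q) := by
  intro n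
  rw [Polynomial.coeff_sub]
  exact nsub (hP n) (hQ n)

theorem IP.eval {P : K[X]} (hP : IP P) (m : ℕ) (h0 : ∀ r < m, P.coeff r = 0) {t : K}
    (ht : ‖t‖ ≤ 1) : ‖P.eval t‖ ≤ ‖t‖ ^ m := by
  rw [Polynomial.eval_eq_sum_range]
  refine nsum _ _ (by positivity) fun i _ => ?_
  by_cases hi : i < m
  · rw [h0 i hi, zero_mul, norm_zero]
    positivity
  · have hi := not_lt.mp hi
    rw [norm_mul, norm_pow]
    calc ‖P.coeff i‖ * ‖t‖ ^ i ≤ 1 * ‖t‖ ^ m :=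
          mul_le_mul (hP i) (pow_le_pow_of_le_one (norm_nonneg _) ht hi) (by positivity)
            zero_le_one
      _ = ‖t‖ ^ m := one_mul _

omit [IsUltrametricDist K] in
theorem ip_trunc (S : PowerSeries K) (hS : ∀ r, ‖PowerSeries.coeff r S‖ ≤ 1) (e : ℕ) :
    IP (PowerSeries.trunc e S) := by
  intro n
  rw [PowerSeries.coeff_trunc]
  split_ifs
  · exact hS n
  · simp

omit [IsUltrametricDist K] in
theorem coeff_trunc_pow (S : PowerSeries K) (e n r : ℕ) (hr : r < e) :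
    ((PowerSeries.trunc e S) ^ n).coeff r = PowerSeries.coeff r (S ^ n) := by
  have h1 : PowerSeries.coeff r (((PowerSeries.trunc e S : K[X]) : PowerSeries K) ^ n) =
      (PowerSeries.trunc e (((PowerSeries.trunc e S : K[X]) : PowerSeries K) ^ n)).coeff r := by
    rw [PowerSeries.coeff_trunc, if_pos hr]
  rw [← Polynomial.coeff_coe, Polynomial.coe_pow, h1, PowerSeries.trunc_trunc_pow,
    PowerSeries.coeff_trunc, if_pos hr]

omit [IsUltrametricDist K] in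
theorem eval_trunc (S : PowerSeries K) (e : ℕ) (t : K) :
    (PowerSeries.trunc e S).eval t =
      ∑ n ∈ Finset.range e, PowerSeries.coeff n S * t ^ n := by
  have h := PowerSeries.eval₂_trunc_eq_sum_range t (RingHom.id K) e S
  rw [Polynomial.eval₂_id] at h
  rw [h]
  rfl

theorem norm_pow_sub_one {x : K} {μ : ℝ} (hμ : μ ≤ 1) (hx : ‖x - 1‖ ≤ μ) (n : ℕ) :
    ‖x ^ n - 1‖ ≤ μ := by
  have h0 : 0 ≤ μ := le_trans (norm_nonneg _) hx
  have hx1 : ‖x‖ ≤ 1 := by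
    have : x = (x - 1) + 1 := by ring
    rw [this]
    exact nadd (le_trans hx hμ) (by simp)
  induction n with
  | zero => simpa using h0
  | succ n ih =>
    have : x ^ (n + 1) - 1 = (x ^ n - 1) * x + (x - 1) := by ring
    rw [this]
    refine nadd ?_ hx
    have := nmul ih hx1
    simpa using this

/-- first order expansion of a power -/
theorem pow_expand {P y : K} {μ w : ℝ} (hμ : μ ≤ 1) (hP : ‖P - 1‖ ≤ μ) (hy : ‖y‖ ≤ w)
    (hw : w ≤ μ) (n : ℕ) : ‖(P + y) ^ n - P ^ n - n * y‖ ≤ μ * w := by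
  have h0 : 0 ≤ w := le_trans (norm_nonneg _) hy
  have h0' : 0 ≤ μ := le_trans h0 hw
  have hP1 : ‖P‖ ≤ 1 := by
    have : P = (P - 1) + 1 := by ring
    rw [this]
    exact nadd (le_trans hP hμ) (by simp)
  have hPy : ‖P + y‖ ≤ 1 := nadd hP1 (by linarith)
  induction n with
  | zero =>
    have : (P + y) ^ 0 - P ^ 0 - ((0 : ℕ) : K) * y = 0 := by simp
    rw [this, norm_zero]
    positivity
  | succ n ih =>
    have e1 : (P + y) ^ (n + 1) - P ^ (n + 1) - ((n + 1 : ℕ) : K) * y =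
        ((P + y) ^ n - P ^ n - n * y) * (P + y) + n * y * (P - 1) + (P ^ n - 1) * y +
          n * y * y := by
      push_cast
      ring
    rw [e1]
    have hny : ‖(n : K) * y‖ ≤ w := by
      have := nmul (nnat (K := K) n) hy
      simpa using this
    refine nadd (nadd (nadd ?_ ?_) ?_) ?_
    · have := nmul ih hPy
      simpa using this
    · have := nmul hny hP
      rw [mul_comm w μ] at this
      exact this
    · exact nmul (norm_pow_sub_one hμ hP n) hy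
    · have := nmul hny (le_trans hy hw)
      rw [mul_comm w μ] at this
      exact this

/-- a large coordinate: `F = P + l w + δ` -/
theorem large_expand {p : ℕ} {L : Subfield K} {e e' N : ℕ} {A : ℕ → K} {g t F : K}
    (hp : ‖(p : K)‖ = (p : ℝ)⁻¹) (hp0 : (p : K) ≠ 0) (hc : Cd L e' A g) (he : 1 ≤ e)
    (hee : e ≤ e') (hN : N = e) (t1 : ‖t‖ ≤ 1)
    (hF : ‖F - (∑ n ∈ Finset.range N, A n / A 0 * t ^ n + g / A 0 * (t ^ e' / p))‖ ≤
      max (‖t‖ ^ N) (‖t‖ ^ e')) :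
    ‖F - (∑ n ∈ Finset.range e, A n / A 0 * t ^ n) - lL e e' A g * (t ^ e / p)‖ ≤
      max (max ‖t‖ ‖t ^ e / (p : K)‖) ((p : ℝ)⁻¹) * ‖t ^ e / (p : K)‖ := by
  subst hN
  have hA0 : ‖A 0‖ = 1 := hc.A0 (le_trans he hee)
  have hgA : ‖g / A 0‖ = 1 := by rw [norm_div, hc.g1, hA0, div_one]
  have h1 : max (‖t‖ ^ N) (‖t‖ ^ e') ≤
      max (max ‖t‖ ‖t ^ N / (p : K)‖) ((p : ℝ)⁻¹) * ‖t ^ N / (p : K)‖ := by
    have h2 : ‖t‖ ^ e' ≤ ‖t‖ ^ N := pow_le_pow_of_le_one (norm_nonneg _) t1 hee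
    rw [max_eq_left h2]
    have h3 : ‖t‖ ^ N = (p : ℝ)⁻¹ * ‖t ^ N / (p : K)‖ := by
      rw [norm_div, norm_pow, hp]
      have h5 : (p : ℝ)⁻¹ ≠ 0 := by
        rw [← hp]
        exact norm_ne_zero_iff.mpr hp0
      rw [mul_div_assoc', mul_comm, mul_div_assoc, div_self h5, mul_one]
    calc ‖t‖ ^ N = (p : ℝ)⁻¹ * ‖t ^ N / (p : K)‖ := h3
      _ ≤ _ := mul_le_mul_of_nonneg_right (le_max_right _ _) (norm_nonneg _)
  by_cases h : e' = N
  · subst h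
    have : F - (∑ n ∈ Finset.range e', A n / A 0 * t ^ n) - lL e' e' A g * (t ^ e' / p) =
        F - (∑ n ∈ Finset.range e', A n / A 0 * t ^ n + g / A 0 * (t ^ e' / p)) := by
      rw [lL, if_pos rfl]
      ring
    rw [this]
    exact le_trans hF h1
  · have hlt : N < e' := lt_of_le_of_ne hee (Ne.symm h)
    have : F - (∑ n ∈ Finset.range N, A n / A 0 * t ^ n) - lL N e' A g * (t ^ N / p) =
        (F - (∑ n ∈ Finset.range N, A n / A 0 * t ^ n + g / A 0 * (t ^ e' / p))) +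
          g / A 0 * (t ^ e' / p) := by
      rw [lL, if_neg h]
      ring
    rw [this]
    refine nadd (le_trans hF h1) ?_
    obtain ⟨d, hd⟩ := Nat.exists_eq_add_of_lt hlt
    have e1 : t ^ e' / (p : K) = t ^ d * (t * (t ^ N / p)) := by
      rw [hd]
      ring
    rw [norm_mul, hgA, one_mul, e1, norm_mul, norm_mul, norm_pow]
    have h4 : ‖t‖ ^ d ≤ 1 := pow_le_one₀ (norm_nonneg _) t1
    calc ‖t‖ ^ d * (‖t‖ * ‖t ^ N / (p : K)‖) ≤ 1 * (‖t‖ * ‖t ^ N / (p : K)‖) :=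
          mul_le_mul_of_nonneg_right h4 (by positivity)
      _ = ‖t‖ * ‖t ^ N / (p : K)‖ := one_mul _
      _ ≤ _ := mul_le_mul_of_nonneg_right (le_trans (le_max_left _ _) (le_max_left _ _))
        (norm_nonneg _)

omit [IsUltrametricDist K] in
theorem lL_norm {L : Subfield K} {e e' : ℕ} {A : ℕ → K} {g : K} (hc : Cd L e' A g)
    (he : 1 ≤ e') : ‖lL e e' A g‖ ≤ 1 := by
  rw [lL]
  split_ifs
  · rw [norm_div, hc.g1, hc.A0 he, div_one]
  · simp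

/-- the core of MAI at one point `t`, with `G = P₁ ^ e₂ - P₂ ^ e₁` -/
theorem core {P₁ P₂ y₁ y₂ F₁ F₂ d₁ d₂ G w : K} {μ X : ℝ} {e₁ e₂ : ℕ} (hμ1 : μ < 1)
    (hw : ‖w‖ ≤ μ) (hX0 : ‖w‖ ≤ X)
    (hP₁ : ‖P₁ - 1‖ ≤ μ) (hP₂ : ‖P₂ - 1‖ ≤ μ) (hl₁ : ‖y₁‖ ≤ 1) (hl₂ : ‖y₂‖ ≤ 1)
    (hF₁ : F₁ = P₁ + (y₁ * w + d₁)) (hF₂ : F₂ = P₂ + (y₂ * w + d₂)) (hd₁ : ‖d₁‖ ≤ μ * ‖w‖)
    (hd₂ : ‖d₂‖ ≤ μ * ‖w‖) (hG : ‖P₁ ^ e₂ - P₂ ^ e₁ - G‖ ≤ μ * X) (hGX : ‖G‖ ≤ X) :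
    F₂ ≠ 0 ∧ ‖F₁ ^ e₂ / F₂ ^ e₁ - 1 - (G + (e₂ * y₁ - e₁ * y₂) * w)‖ ≤ μ * X ∧
      ‖F₁ ^ e₂ / F₂ ^ e₁ - 1‖ ≤ X := by
  have hμ0 : 0 ≤ μ := le_trans (norm_nonneg _) hw
  have hμw : μ * ‖w‖ ≤ ‖w‖ := by nlinarith [norm_nonneg w]
  have hX00 : 0 ≤ X := le_trans (norm_nonneg _) hX0
  have hy₁ : ‖y₁ * w + d₁‖ ≤ ‖w‖ := nadd (by
    have := nmul hl₁ (le_refl ‖w‖)
    simpa using this) (le_trans hd₁ hμw)
  have hy₂ : ‖y₂ * w + d₂‖ ≤ ‖w‖ := nadd (by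
    have := nmul hl₂ (le_refl ‖w‖)
    simpa using this) (le_trans hd₂ hμw)
  have p₁ := pow_expand hμ1.le hP₁ hy₁ hw e₂
  have p₂ := pow_expand hμ1.le hP₂ hy₂ hw e₁
  rw [← hF₁] at p₁
  rw [← hF₂] at p₂
  have hF₂1 : ‖F₂ - 1‖ ≤ μ := by
    have : F₂ - 1 = (P₂ - 1) + (y₂ * w + d₂) := by
      rw [hF₂]
      ring
    rw [this]
    exact nadd hP₂ (le_trans hy₂ hw)
  have hpw := norm_pow_sub_one hμ1.le hF₂1 e₁
  have hne : ∀ x : K, ‖x - 1‖ ≤ μ → ‖x‖ = 1 := by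
    intro x hx
    have h1 : ‖(1 : K) + (x - 1)‖ = max ‖(1 : K)‖ ‖x - 1‖ :=
      IsUltrametricDist.norm_add_eq_max_of_norm_ne_norm (by
        rw [norm_one]
        exact ne_of_gt (lt_of_le_of_lt hx hμ1))
    rw [add_sub_cancel, norm_one, max_eq_left (le_trans hx hμ1.le)] at h1
    exact h1
  have hnF := hne _ hF₂1
  have hnFe := hne _ hpw
  have hF20 : F₂ ≠ 0 := by
    rw [← norm_ne_zero_iff, hnF]
    exact one_ne_zero
  have hFe0 : F₂ ^ e₁ ≠ 0 := pow_ne_zero _ hF20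
  -- the difference
  have hD : ‖F₁ ^ e₂ - F₂ ^ e₁ - (G + (e₂ * y₁ - e₁ * y₂) * w)‖ ≤ μ * X := by
    have hwX : μ * ‖w‖ ≤ μ * X := mul_le_mul_of_nonneg_left hX0 hμ0
    have : F₁ ^ e₂ - F₂ ^ e₁ - (G + (e₂ * y₁ - e₁ * y₂) * w) =
        (F₁ ^ e₂ - P₁ ^ e₂ - e₂ * (y₁ * w + d₁)) - (F₂ ^ e₁ - P₂ ^ e₁ - e₁ * (y₂ * w + d₂)) +
          (P₁ ^ e₂ - P₂ ^ e₁ - G) + (e₂ * d₁ - e₁ * d₂) := by ring
    rw [this]
    refine nadd (nadd (nsub (le_trans p₁ hwX) (le_trans p₂ hwX)) hG) (nsub ?_ ?_)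
    · have := nmul (nnat (K := K) e₂) hd₁
      rw [one_mul] at this
      exact le_trans this hwX
    · have := nmul (nnat (K := K) e₁) hd₂
      rw [one_mul] at this
      exact le_trans this hwX
  have hmain : ‖G + (e₂ * y₁ - e₁ * y₂) * w‖ ≤ X := by
    refine nadd hGX ?_
    have h1 : ‖(e₂ : K) * y₁ - e₁ * y₂‖ ≤ 1 := by
      refine nsub ?_ ?_
      · have := nmul (nnat (K := K) e₂) hl₁
        simpa using this
      · have := nmul (nnat (K := K) e₁) hl₂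
        simpa using this
    have := nmul h1 (le_refl ‖w‖)
    rw [one_mul] at this
    exact le_trans this hX0
  have hμX : μ * X ≤ X := by nlinarith
  have hD1 : ‖F₁ ^ e₂ - F₂ ^ e₁‖ ≤ X := by
    have : F₁ ^ e₂ - F₂ ^ e₁ = (F₁ ^ e₂ - F₂ ^ e₁ - (G + (e₂ * y₁ - e₁ * y₂) * w)) +
        (G + (e₂ * y₁ - e₁ * y₂) * w) := by ring
    rw [this]
    exact nadd (le_trans hD hμX) hmain
  refine ⟨hF20, ?_, ?_⟩
  · have e1 : F₁ ^ e₂ / F₂ ^ e₁ - 1 - (G + (e₂ * y₁ - e₁ * y₂) * w) =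
        (F₁ ^ e₂ - F₂ ^ e₁ - (G + (e₂ * y₁ - e₁ * y₂) * w)) -
          (F₂ ^ e₁ - 1) * ((F₁ ^ e₂ - F₂ ^ e₁) / F₂ ^ e₁) := by
      field_simp
      ring
    rw [e1]
    refine nsub hD ?_
    rw [norm_mul, norm_div, hnFe, div_one]
    exact mul_le_mul hpw hD1 (norm_nonneg _) hμ0
  · have e2 : F₁ ^ e₂ / F₂ ^ e₁ - 1 = (F₁ ^ e₂ - F₂ ^ e₁) / F₂ ^ e₁ := by
      field_simp
    rw [e2, norm_div, hnFe, div_one]
    exact hD1

/-- the polynomial part -/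
theorem poly_part {S₁ S₂ : PowerSeries K} (h₁ : ∀ r, ‖PowerSeries.coeff r S₁‖ ≤ 1)
    (h₂ : ∀ r, ‖PowerSeries.coeff r S₂‖ ≤ 1) (e e₁ e₂ : ℕ)
    (hW : S₁ ^ e₂ = S₂ ^ e₁ ∨ ∃ m, 1 ≤ m ∧
      (∀ r, r < m → PowerSeries.coeff r (S₁ ^ e₂) = PowerSeries.coeff r (S₂ ^ e₁)) ∧
      ‖PowerSeries.coeff m (S₁ ^ e₂) - PowerSeries.coeff m (S₂ ^ e₁)‖ = 1) :
    ∃ (m : ℕ) (H : K), (H = 0 ∨ (1 ≤ m ∧ m < e ∧ ‖H‖ = 1)) ∧ ∀ t : K, ‖t‖ ≤ 1 →
      ‖(∑ n ∈ Finset.range e, PowerSeries.coeff n S₁ * t ^ n) ^ e₂ -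
        (∑ n ∈ Finset.range e, PowerSeries.coeff n S₂ * t ^ n) ^ e₁ - H * t ^ m‖ ≤
        max (‖t‖ ^ e) (‖H‖ * ‖t‖ ^ m * ‖t‖) := by
  set G : K[X] := (PowerSeries.trunc e S₁) ^ e₂ - (PowerSeries.trunc e S₂) ^ e₁ with hG
  have hGi : IP G := ((ip_trunc S₁ h₁ e).pow e₂).sub ((ip_trunc S₂ h₂ e).pow e₁)
  have hGc : ∀ r < e, G.coeff r =
      PowerSeries.coeff r (S₁ ^ e₂) - PowerSeries.coeff r (S₂ ^ e₁) := by
    intro r hr
    rw [hG, Polynomial.coeff_sub, coeff_trunc_pow S₁ e e₂ r hr, coeff_trunc_pow S₂ e e₁ r hr]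
  have hGe : ∀ t : K, G.eval t = (∑ n ∈ Finset.range e, PowerSeries.coeff n S₁ * t ^ n) ^ e₂ -
      (∑ n ∈ Finset.range e, PowerSeries.coeff n S₂ * t ^ n) ^ e₁ := by
    intro t
    rw [hG, Polynomial.eval_sub, Polynomial.eval_pow, Polynomial.eval_pow, eval_trunc,
      eval_trunc]
  have caseA : (∀ r < e, PowerSeries.coeff r (S₁ ^ e₂) = PowerSeries.coeff r (S₂ ^ e₁)) →
      ∃ (m : ℕ) (H : K), (H = 0 ∨ (1 ≤ m ∧ m < e ∧ ‖H‖ = 1)) ∧ ∀ t : K, ‖t‖ ≤ 1 →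
      ‖(∑ n ∈ Finset.range e, PowerSeries.coeff n S₁ * t ^ n) ^ e₂ -
        (∑ n ∈ Finset.range e, PowerSeries.coeff n S₂ * t ^ n) ^ e₁ - H * t ^ m‖ ≤
        max (‖t‖ ^ e) (‖H‖ * ‖t‖ ^ m * ‖t‖) := by
    intro h
    refine ⟨0, 0, Or.inl rfl, fun t ht => ?_⟩
    rw [← hGe, zero_mul, sub_zero]
    refine le_trans (hGi.eval e (fun r hr => ?_) ht) (le_max_left _ _)
    rw [hGc r hr, h r hr, sub_self]
  rcases hW with hW | ⟨m, hm1, hm2, hm3⟩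
  · exact caseA fun r _ => by rw [hW]
  · by_cases hme : e ≤ m
    · exact caseA fun r hr => hm2 r (lt_of_lt_of_le hr hme)
    · have hme := not_le.mp hme
      refine ⟨m, G.coeff m, Or.inr ⟨hm1, hme, by rw [hGc m hme]; exact hm3⟩, fun t ht => ?_⟩
      have hn : ‖G.coeff m‖ = 1 := by
        rw [hGc m hme]
        exact hm3
      rw [← hGe]
      have e1 : G.eval t - G.coeff m * t ^ m =
          (G - Polynomial.C (G.coeff m) * Polynomial.X ^ m).eval t := by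
        simp
      have hIP : IP (G - Polynomial.C (G.coeff m) * Polynomial.X ^ m) := by
        intro n
        rw [Polynomial.coeff_sub, Polynomial.coeff_C_mul_X_pow]
        refine nsub (hGi n) ?_
        split_ifs
        · exact hn.le
        · simp
      have h0 : ∀ r < m + 1, (G - Polynomial.C (G.coeff m) * Polynomial.X ^ m).coeff r = 0 := by
        intro r hr
        rw [Polynomial.coeff_sub, Polynomial.coeff_C_mul_X_pow]
        by_cases hrm : r = m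
        · subst hrm
          simp
        · rw [if_neg hrm, sub_zero, hGc r (by omega), hm2 r (by omega), sub_self]
      rw [e1]
      refine le_trans (hIP.eval (m + 1) h0 ht) (le_trans (le_of_eq ?_) (le_max_right _ _))
      rw [hn, one_mul, pow_succ]

end ultra

/-- **Row MAI.** -/
theorem mai (thb : ZP3.THBStmt) (lgb : LgbStmt) (num : NumStmt) (rla : RlaStmt) : MaiStmt := by
  intro U hU p E hp hE hpE K _ _ _ _ hext Log hLog L hL e e₁ e₂ A₁ A₂ g₁ g₂ hc₁ hc₂ he he₁E he₂E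
    hemin hl hW
  have hp5 : 5 ≤ p := by nlinarith
  have hEp : E < p := by nlinarith
  obtain ⟨-, thpos, thlt, hpth, -⟩ := thb p hp hp5
  obtain ⟨-, -, hrh, hnum⟩ := num p E hp hE hpE
  obtain ⟨⟨-, lpow⟩, ldiv, -, -, lser, -, -⟩ := lgb p hp hp5 K hext Log hLog
  have hee₁ : e ≤ e₁ := hemin ▸ min_le_left _ _
  have hee₂ : e ≤ e₂ := hemin ▸ min_le_right _ _
  have he₁ : 1 ≤ e₁ := le_trans he hee₁
  have he₂ : 1 ≤ e₂ := le_trans he hee₂
  have heE : e ≤ E := le_trans hee₁ he₁E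
  have hppos : (0 : ℝ) < p := by exact_mod_cast hp.pos
  have hpinv1 : (p : ℝ)⁻¹ < 1 := by
    have h2 : (1 : ℝ) < p := by exact_mod_cast hp.one_lt
    exact inv_lt_one_of_one_lt₀ h2
  have hnp : ‖(p : K)‖ = (p : ℝ)⁻¹ := by
    have := hext (p : ℚ)
    rw [Rat.cast_natCast] at this
    rw [this]
    haveI := Fact.mk hp
    rw [padicNorm.padicNorm_p_of_prime]
    push_cast
    rfl
  have hp0 : (p : K) ≠ 0 := by
    rw [← norm_ne_zero_iff, hnp]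
    positivity
  have hcop : ∀ n : ℕ, 1 ≤ n → n ≤ E → ‖(n : K)‖ = 1 := by
    intro n h1 h2
    have h3 := hext (n : ℚ)
    rw [Rat.cast_natCast] at h3
    rw [h3]
    haveI := Fact.mk hp
    have h4 : padicNorm p ((n : ℕ) : ℚ) = 1 := by
      rw [padicNorm.nat_eq_one_iff]
      intro h5
      have := Nat.le_of_dvd h1 h5
      omega
    rw [h4]
    simp
  have hA₁ := hc₁.A0 he₁
  have hA₂ := hc₂.A0 he₂
  have hco : ∀ (A : ℕ → K) (e' : ℕ) (g : K), Cd L e' A g → 1 ≤ e' → ∀ r,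
      ‖PowerSeries.coeff r (PowerSeries.mk fun r => A r / A 0)‖ ≤ 1 := by
    intro A e' g hc h1 r
    rw [PowerSeries.coeff_mk, norm_div, hc.A0 h1, div_one]
    exact hc.An1 r
  obtain ⟨m, H', hH', hpoly⟩ := poly_part (hco A₁ e₁ g₁ hc₁ he₁) (hco A₂ e₂ g₂ hc₂ he₂) e e₁ e₂
    (by
      rcases hW with h | ⟨m, h1, -, h2, h3⟩
      · exact Or.inl h
      · exact Or.inr ⟨m, h1, h2, h3⟩)
  have hn₁ := hcop e₁ he₁ he₁E
  have hn₂ := hcop e₂ he₂ he₂E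
  have hK₁ : (e₁ : K) ≠ 0 := by
    rw [← norm_ne_zero_iff, hn₁]
    exact one_ne_zero
  have hK₂ : (e₂ : K) ≠ 0 := by
    rw [← norm_ne_zero_iff, hn₂]
    exact one_ne_zero
  refine ⟨m, H' / (e₁ * e₂), (e₂ * lL e e₁ A₁ g₁ - e₁ * lL e e₂ A₂ g₂) / (e₁ * e₂), ?_, ?_, ?_⟩
  · rcases hH' with h | ⟨h1, h2, h3⟩
    · left
      rw [h, zero_div]
    · right
      refine ⟨h1, h2, ?_⟩
      rw [norm_div, norm_mul, hn₁, hn₂, h3]
      simp
  · rw [norm_div, norm_mul, hn₁, hn₂, mul_one, div_one]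
    rcases lt_trichotomy e₁ e₂ with h | h | h
    · have h1 : e = e₁ := by omega
      have h2 : lL e e₂ A₂ g₂ = 0 := by
        rw [lL, if_neg (by omega)]
      rw [h2, sub_zero] at hl
      rw [h2, mul_zero, sub_zero, norm_mul, hn₂, hl, one_mul]
    · subst h
      rw [← mul_sub, norm_mul, hl, hn₁, one_mul]
    · have h2 : lL e e₁ A₁ g₁ = 0 := by
        rw [lL, if_neg (by omega)]
      rw [h2, zero_sub, norm_neg] at hl
      rw [h2, mul_zero, zero_sub, norm_neg, norm_mul, hn₁, hl, one_mul]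
  · intro t q₁ q₂ t0 hLa hwth hAt₁ hAt₂
    have ht1 : ‖t‖ < 1 := by
      by_contra hcon
      have h1 : (1 : ℝ) ≤ ‖t‖ ^ e := one_le_pow₀ (not_lt.mp hcon)
      have h2 : ‖t‖ ^ e < (p : ℝ)⁻¹ := hLa
      linarith
    have hLa₁ : La p e₁ t := lt_of_le_of_lt (pow_le_pow_of_le_one (norm_nonneg _) ht1.le hee₁) hLa
    have hLa₂ : La p e₂ t := lt_of_le_of_lt (pow_le_pow_of_le_one (norm_nonneg _) ht1.le hee₂) hLa
    have htrh : ‖t‖ ≤ rh p E := (hnum ‖t‖ e t0 ht1 he heE).1 hLa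
    have hth20 : th p ^ 20 ≤ th p ^ 2 := pow_le_pow_of_le_one thpos.le thlt.le (by norm_num)
    have hth3 : th p ^ 3 ≤ th p ^ 2 := pow_le_pow_of_le_one thpos.le thlt.le (by norm_num)
    have htth : ‖t‖ ≤ th p ^ 2 := le_trans (le_trans htrh hrh.le) hth20
    have hth1 : th p ^ 2 < 1 := pow_lt_one₀ thpos.le thlt (by norm_num)
    obtain ⟨hq₁, hr₁⟩ := rla U hU p hp hp5 K hext L e₁ A₁ g₁ hc₁ he₁ t q₁ t0 ht1 hLa₁ hAt₁
    obtain ⟨hq₂, hr₂⟩ := rla U hU p hp hp5 K hext L e₂ A₂ g₂ hc₂ he₂ t q₂ t0 ht1 hLa₂ hAt₂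
    have x₁ := large_expand hnp hp0 hc₁ he hee₁ rfl ht1.le (hr₁ e he)
    have x₂ := large_expand hnp hp0 hc₂ he hee₂ rfl ht1.le (hr₂ e he)
    have hpol := hpoly t ht1.le
    simp only [PowerSeries.coeff_mk] at hpol
    set w : K := t ^ e / (p : K) with hw
    set μ : ℝ := max (max ‖t‖ ‖w‖) ((p : ℝ)⁻¹) with hμ
    set F₁ : K := t ^ e₁ * q₁⁻¹ / A₁ 0 with hF₁
    set F₂ : K := t ^ e₂ * q₂⁻¹ / A₂ 0 with hF₂
    set P₁ : K := ∑ n ∈ Finset.range e, A₁ n / A₁ 0 * t ^ n with hP₁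
    set P₂ : K := ∑ n ∈ Finset.range e, A₂ n / A₂ 0 * t ^ n with hP₂
    have htμ : ‖t‖ ≤ μ := le_trans (le_max_left _ _) (le_max_left _ _)
    have hwμ : ‖w‖ ≤ μ := le_trans (le_max_right _ _) (le_max_left _ _)
    have hpμ : (p : ℝ)⁻¹ ≤ μ := le_max_right _ _
    have hμth : μ ≤ th p ^ 2 := max_le (max_le htth hwth) (le_trans hpth.le hth3)
    have hμ1 : μ < 1 := lt_of_le_of_lt hμth hth1
    have hte : ‖t‖ ^ e = (p : ℝ)⁻¹ * ‖w‖ := by
      rw [hw, norm_div, norm_pow, hnp]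
      have h5 : (p : ℝ)⁻¹ ≠ 0 := by positivity
      rw [mul_div_assoc', mul_comm, mul_div_assoc, div_self h5, mul_one]
    have hPP : ∀ (A : ℕ → K) (e' : ℕ) (g : K), Cd L e' A g → 1 ≤ e' →
        ‖(∑ n ∈ Finset.range e, A n / A 0 * t ^ n) - 1‖ ≤ μ := by
      intro A e' g hc h1
      have hA0 : A 0 ≠ 0 := by
        rw [← norm_ne_zero_iff, hc.A0 h1]
        exact one_ne_zero
      obtain ⟨e'', rfl⟩ : ∃ e'', e = e'' + 1 := ⟨e - 1, by omega⟩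
      rw [Finset.sum_range_succ', pow_zero, mul_one, div_self hA0, add_sub_cancel_right]
      refine nsum _ _ (le_trans (norm_nonneg _) htμ) fun i _ => ?_
      have h2 : ‖A (i + 1) / A 0‖ ≤ 1 := by
        rw [norm_div, hc.A0 h1, div_one]
        exact hc.An1 _
      have h3 : ‖t ^ (i + 1)‖ ≤ ‖t‖ := by
        rw [norm_pow]
        calc ‖t‖ ^ (i + 1) ≤ ‖t‖ ^ 1 := pow_le_pow_of_le_one (norm_nonneg _) ht1.le (by omega)
          _ = ‖t‖ := pow_one _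
      have := nmul h2 h3
      rw [one_mul] at this
      exact le_trans this htμ
    set X : ℝ := max (‖H'‖ * ‖t‖ ^ m) ‖w‖ with hX
    have hX0 : ‖w‖ ≤ X := le_max_right _ _
    have hX00 : 0 ≤ X := le_trans (norm_nonneg _) hX0
    have hμ0 : 0 ≤ μ := le_trans (norm_nonneg _) htμ
    have hXtw : X ≤ max ‖t‖ ‖w‖ := by
      refine max_le_max ?_ le_rfl
      rcases hH' with h | ⟨h1, -, h3⟩
      · rw [h, norm_zero, zero_mul]
        exact norm_nonneg _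
      · rw [h3, one_mul]
        calc ‖t‖ ^ m ≤ ‖t‖ ^ 1 := pow_le_pow_of_le_one (norm_nonneg _) ht1.le h1
          _ = ‖t‖ := pow_one _
    have hG : ‖P₁ ^ e₂ - P₂ ^ e₁ - H' * t ^ m‖ ≤ μ * X := by
      refine le_trans hpol (max_le ?_ ?_)
      · rw [hte]
        exact mul_le_mul hpμ hX0 (norm_nonneg _) hμ0
      · rw [mul_comm]
        exact mul_le_mul htμ (le_max_left _ _) (by positivity) hμ0
    have hGX : ‖H' * t ^ m‖ ≤ X := by
      rw [norm_mul, norm_pow]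
      exact le_max_left _ _
    obtain ⟨hF20, c1, c2⟩ := core (P₁ := P₁) (P₂ := P₂) (y₁ := lL e e₁ A₁ g₁)
      (y₂ := lL e e₂ A₂ g₂) (F₁ := F₁) (F₂ := F₂) (d₁ := F₁ - P₁ - lL e e₁ A₁ g₁ * w)
      (d₂ := F₂ - P₂ - lL e e₂ A₂ g₂ * w) (G := H' * t ^ m) (w := w) (μ := μ) (X := X)
      (e₁ := e₁) (e₂ := e₂) hμ1 hwμ hX0 (hPP A₁ e₁ g₁ hc₁ he₁) (hPP A₂ e₂ g₂ hc₂ he₂)
      (lL_norm hc₁ he₁) (lL_norm hc₂ he₂) (by ring) (by ring) x₁ x₂ hG hGX
    have ht0 : t ≠ 0 := norm_pos_iff.mp t0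
    have hF10 : F₁ ≠ 0 := by
      rw [hF₁]
      have h1 : q₁ ≠ 0 := norm_pos_iff.mp hAt₁.q0
      have h2 : A₁ 0 ≠ 0 := by
        rw [← norm_ne_zero_iff, hA₁]
        exact one_ne_zero
      exact div_ne_zero (mul_ne_zero (pow_ne_zero _ ht0) (inv_ne_zero h1)) h2
    have hXth : X ≤ th p ^ 2 := le_trans hXtw (max_le htth hwth)
    set x : K := F₁ ^ e₂ / F₂ ^ e₁ - 1 with hx
    have l1 := lser x (le_trans c2 hXth)
    have hlog : Log (1 + x) = (e₂ : K) * Log F₁ - (e₁ : K) * Log F₂ := by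
      rw [hx, add_sub_cancel, ldiv _ _ (pow_ne_zero _ hF10) (pow_ne_zero _ hF20)]
      have h1 := lpow F₁ (e₂ : ℤ) hF10
      have h2 := lpow F₂ (e₁ : ℤ) hF20
      rw [zpow_natCast, Int.cast_natCast] at h1 h2
      rw [h1, h2]
    have hxx : ‖x‖ ^ 2 ≤ μ * X := by
      rw [pow_two]
      exact mul_le_mul (le_trans c2 (le_trans hXtw (le_max_left _ _))) c2 (norm_nonneg _) hμ0
    have fin : ‖Log (1 + x) - (H' * t ^ m +
        ((e₂ : K) * lL e e₁ A₁ g₁ - (e₁ : K) * lL e e₂ A₂ g₂) * w)‖ ≤ μ * X := by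
      have : Log (1 + x) - (H' * t ^ m +
          ((e₂ : K) * lL e e₁ A₁ g₁ - (e₁ : K) * lL e e₂ A₂ g₂) * w) = (Log (1 + x) - x) +
          (x - (H' * t ^ m +
          ((e₂ : K) * lL e e₁ A₁ g₁ - (e₁ : K) * lL e e₂ A₂ g₂) * w)) := by ring
      rw [this]
      exact nadd (le_trans l1 hxx) c1
    have hHn : ‖H' / ((e₁ : K) * e₂)‖ = ‖H'‖ := by
      rw [norm_div, norm_mul, hn₁, hn₂, mul_one, div_one]
    rw [hHn]
    have efin : Log F₁ / (e₁ : K) - Log F₂ / (e₂ : K) - (H' / ((e₁ : K) * e₂) * t ^ m +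
        ((e₂ : K) * lL e e₁ A₁ g₁ - (e₁ : K) * lL e e₂ A₂ g₂) / ((e₁ : K) * e₂) * w) =
        (Log (1 + x) - (H' * t ^ m +
        ((e₂ : K) * lL e e₁ A₁ g₁ - (e₁ : K) * lL e e₂ A₂ g₂) * w)) / ((e₁ : K) * e₂) := by
      rw [hlog]
      field_simp
    rw [efin, norm_div, norm_mul, hn₁, hn₂, mul_one, div_one]
    exact fin

end Pool.Agent.ZPK.H89
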